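import Mathlib

/-! # Four squares in a pencil of polynomials -/

namespace Pool.Agent.Q52.SecV

open Polynomial

/-- coprime factors of a square over an algebraically closed field are squares -/
lemma isSquare_of_mul {F : Type*} [Field F] [IsAlgClosed F] {a b c : F[X]} (hab : IsCoprime a b)
    (h : a * b = c ^ 2) : ∃ d, a = d ^ 2 := by
  obtain ⟨d, hd⟩ := exists_associated_pow_of_mul_eq_pow' hab h
  obtain ⟨u, hu⟩ := hd
  obtain ⟨r, hr, hru⟩ := Polynomial.isUnit_iff.1 u.isUnit
  obtain ⟨w, hw⟩ := IsAlgClosed.exists_pow_nat_eq r (n := 2) (by norm_num)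
  refine ⟨d * C w, ?_⟩
  rw [mul_pow, ← C_pow, hw, hru, hu]

/-- If four different members of the pencil spanned by two coprime polynomials are squares, then the
polynomials are constant. -/
theorem four_squares {F : Type*} [Field F] [IsAlgClosed F] (h2 : (2 : F) ≠ 0) :
    ∀ (n : ℕ) (P Q : F[X]), P.natDegree ≤ n → Q.natDegree ≤ n → IsCoprime P Q →
      ∀ (α β : Fin 4 → F), (∀ i j, i ≠ j → α i * β j - α j * β i ≠ 0) →
      (∀ i, ∃ S, C (α i) * P + C (β i) * Q = S ^ 2) → P.natDegree = 0 ∧ Q.natDegree = 0 := by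
  intro n
  induction n using Nat.strong_induction_on with
  | _ n ih =>
    intro P Q hP hQ hPQ α β hαβ hsq
    rcases Nat.eq_zero_or_pos n with rfl | hn
    · exact ⟨by omega, by omega⟩
    obtain ⟨S1, hS1⟩ := hsq 0
    obtain ⟨S2, hS2⟩ := hsq 1
    obtain ⟨S3, hS3⟩ := hsq 2
    obtain ⟨S4, hS4⟩ := hsq 3
    set δ := α 0 * β 1 - α 1 * β 0 with hδ
    have hδ0 : δ ≠ 0 := hαβ 0 1 (by decide)
    have hCδ : C δ * C δ⁻¹ = 1 := by rw [← C_mul, mul_inv_cancel₀ hδ0, C_1]
    have hPe : P = C δ⁻¹ * (C (β 1) * S1 ^ 2 - C (β 0) * S2 ^ 2) := by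
      have h1 : C δ * P = C (β 1) * S1 ^ 2 - C (β 0) * S2 ^ 2 := by
        rw [← hS1, ← hS2, hδ, C_sub, C_mul, C_mul]
        ring
      rw [← h1, ← mul_assoc, mul_comm (C δ⁻¹), hCδ, one_mul]
    have hQe : Q = C δ⁻¹ * (C (α 0) * S2 ^ 2 - C (α 1) * S1 ^ 2) := by
      have h1 : C δ * Q = C (α 0) * S2 ^ 2 - C (α 1) * S1 ^ 2 := by
        rw [← hS1, ← hS2, hδ, C_sub, C_mul, C_mul]
        ring
      rw [← h1, ← mul_assoc, mul_comm (C δ⁻¹), hCδ, one_mul]
    have hcop : IsCoprime S1 S2 := by
      have h1 : IsCoprime (S1 ^ 2) (S2 ^ 2) := by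
        obtain ⟨u, v, huv⟩ := hPQ
        refine ⟨C δ⁻¹ * (u * C (β 1) - v * C (α 1)), C δ⁻¹ * (v * C (α 0) - u * C (β 0)), ?_⟩
        rw [← huv]
        conv_rhs => rw [hPe, hQe]
        ring
      exact (IsCoprime.pow_iff (by norm_num) (by norm_num)).1 h1
    have hd1 : S1.natDegree ≤ n / 2 := by
      have h1 : (S1 ^ 2).natDegree ≤ n := by
        rw [← hS1]
        refine (natDegree_add_le _ _).trans (max_le ?_ ?_)
        · exact (natDegree_C_mul_le _ _).trans hP
        · exact (natDegree_C_mul_le _ _).trans hQ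
      rw [natDegree_pow] at h1
      omega
    have hd2 : S2.natDegree ≤ n / 2 := by
      have h1 : (S2 ^ 2).natDegree ≤ n := by
        rw [← hS2]
        refine (natDegree_add_le _ _).trans (max_le ?_ ?_)
        · exact (natDegree_C_mul_le _ _).trans hP
        · exact (natDegree_C_mul_le _ _).trans hQ
      rw [natDegree_pow] at h1
      omega
    -- the coefficients of the other two squares
    have key : ∀ i : Fin 4, i ≠ 0 → i ≠ 1 → ∀ S, C (α i) * P + C (β i) * Q = S ^ 2 →
        ∃ l m : F, l ≠ 0 ∧ m ≠ 0 ∧ l ^ 2 = (α i * β 1 - α 1 * β i) / δ ∧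
          m ^ 2 = -((α 0 * β i - α i * β 0) / δ) ∧
          (∃ T, C l * S1 + C (-m) * S2 = T ^ 2) ∧ ∃ T, C l * S1 + C m * S2 = T ^ 2 := by
      intro i hi0 hi1 S hS
      obtain ⟨l, hl⟩ := IsAlgClosed.exists_pow_nat_eq ((α i * β 1 - α 1 * β i) / δ) (n := 2)
        (by norm_num)
      obtain ⟨m, hm⟩ := IsAlgClosed.exists_pow_nat_eq (-((α 0 * β i - α i * β 0) / δ)) (n := 2)
        (by norm_num)
      have hl0 : l ≠ 0 := by
        rintro rfl
        rw [zero_pow (by norm_num)] at hl
        exact (div_ne_zero (hαβ i 1 hi1) hδ0) hl.symm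
      have hm0 : m ≠ 0 := by
        rintro rfl
        rw [zero_pow (by norm_num)] at hm
        exact (neg_ne_zero.2 (div_ne_zero (hαβ 0 i hi0.symm) hδ0)) hm.symm
      have hprod : (C l * S1 + C (-m) * S2) * (C l * S1 + C m * S2) = S ^ 2 := by
        have h1 : (C l * S1 + C (-m) * S2) * (C l * S1 + C m * S2) =
            C (l ^ 2) * S1 ^ 2 - C (m ^ 2) * S2 ^ 2 := by
          rw [C_neg, C_pow, C_pow]
          ring
        rw [h1, ← hS, hl, hm]
        conv_rhs => rw [hPe, hQe]
        have h2 : C ((α i * β 1 - α 1 * β i) / δ) = C δ⁻¹ * (C (α i) * C (β 1) - C (α 1) * C (β i)) := by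
          rw [div_eq_inv_mul, C_mul, C_sub, C_mul, C_mul]
        have h3 : C (-((α 0 * β i - α i * β 0) / δ)) =
            -(C δ⁻¹ * (C (α 0) * C (β i) - C (α i) * C (β 0))) := by
          rw [div_eq_inv_mul, C_neg, C_mul, C_sub, C_mul, C_mul]
        rw [h2, h3]
        ring
      have h2C : C (2 * l)⁻¹ * (C 2 * C l) = 1 := by
        rw [← C_mul, ← C_mul, inv_mul_cancel₀ (mul_ne_zero h2 hl0), C_1]
      have h2C' : C (2 * m)⁻¹ * (C 2 * C m) = 1 := by
        rw [← C_mul, ← C_mul, inv_mul_cancel₀ (mul_ne_zero h2 hm0), C_1]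
      have hcp : IsCoprime (C l * S1 + C (-m) * S2) (C l * S1 + C m * S2) := by
        obtain ⟨u, v, huv⟩ := hcop
        refine ⟨u * C (2 * l)⁻¹ - v * C (2 * m)⁻¹, u * C (2 * l)⁻¹ + v * C (2 * m)⁻¹, ?_⟩
        have h5 : (u * C (2 * l)⁻¹ - v * C (2 * m)⁻¹) * (C l * S1 + C (-m) * S2) +
            (u * C (2 * l)⁻¹ + v * C (2 * m)⁻¹) * (C l * S1 + C m * S2) =
            u * S1 * (C (2 * l)⁻¹ * (C 2 * C l)) + v * S2 * (C (2 * m)⁻¹ * (C 2 * C m)) := by
          rw [C_neg]
          have h6 : (C 2 : F[X]) = 2 := rfl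
          rw [h6]
          ring
        rw [h5, h2C, h2C', mul_one, mul_one, huv]
      refine ⟨l, m, hl0, hm0, hl, hm, isSquare_of_mul hcp hprod, ?_⟩
      exact isSquare_of_mul hcp.symm (by rw [mul_comm]; exact hprod)
    obtain ⟨l, m, hl0, hm0, hl, hm, hT1, hT2⟩ := key 2 (by decide) (by decide) S3 hS3
    obtain ⟨l', m', hl0', hm0', hl', hm', hT1', hT2'⟩ := key 3 (by decide) (by decide) S4 hS4
    have hindep : l ^ 2 * m' ^ 2 - l' ^ 2 * m ^ 2 ≠ 0 := by
      rw [hl, hm, hl', hm']
      have h1 : (α 2 * β 1 - α 1 * β 2) / δ * -((α 0 * β 3 - α 3 * β 0) / δ) -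
          (α 3 * β 1 - α 1 * β 3) / δ * -((α 0 * β 2 - α 2 * β 0) / δ) =
          -((α 2 * β 3 - α 3 * β 2)) / δ := by
        field_simp
        rw [hδ]
        ring
      rw [h1]
      exact div_ne_zero (neg_ne_zero.2 (hαβ 2 3 (by decide))) hδ0
    have hne1 : l * m' - l' * m ≠ 0 := by
      intro h
      apply hindep
      have h1 : l ^ 2 * m' ^ 2 - l' ^ 2 * m ^ 2 = (l * m' - l' * m) * (l * m' + l' * m) := by ring
      rw [h1, h, zero_mul]
    have hne2 : l * m' + l' * m ≠ 0 := by
      intro h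
      apply hindep
      have h1 : l ^ 2 * m' ^ 2 - l' ^ 2 * m ^ 2 = (l * m' - l' * m) * (l * m' + l' * m) := by ring
      rw [h1, h, mul_zero]
    have hlm : 2 * l * m ≠ 0 := mul_ne_zero (mul_ne_zero h2 hl0) hm0
    have hlm' : 2 * l' * m' ≠ 0 := mul_ne_zero (mul_ne_zero h2 hl0') hm0'
    have hS := ih (n / 2) (by omega) S1 S2 hd1 hd2 hcop ![l, l, l', l'] ![-m, m, -m', m'] (by
      intro i j hij
      fin_cases i <;> fin_cases j <;> simp at hij ⊢
      · intro h; apply hlm; linear_combination h
      · intro h; apply hne1; linear_combination -h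
      · intro h; apply hne2; linear_combination h
      · intro h; apply hlm; linear_combination -h
      · intro h; apply hne2; linear_combination -h
      · intro h; apply hne1; linear_combination h
      · intro h; apply hne1; linear_combination h
      · intro h; apply hne2; linear_combination h
      · intro h; apply hlm'; linear_combination h
      · intro h; apply hne2; linear_combination -h
      · intro h; apply hne1; linear_combination -h
      · intro h; apply hlm'; linear_combination -h) (by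
      intro i
      fin_cases i
      · exact hT1
      · exact hT2
      · exact hT1'
      · exact hT2')
    have hz1 : (S1 ^ 2).natDegree = 0 := by rw [natDegree_pow, hS.1, mul_zero]
    have hz2 : (S2 ^ 2).natDegree = 0 := by rw [natDegree_pow, hS.2, mul_zero]
    obtain ⟨r1, hr1⟩ := natDegree_eq_zero.1 hz1
    obtain ⟨r2, hr2⟩ := natDegree_eq_zero.1 hz2
    constructor
    · rw [hPe, ← hr1, ← hr2, ← C_mul, ← C_mul, ← C_sub, ← C_mul, natDegree_C]
    · rw [hQe, ← hr1, ← hr2, ← C_mul, ← C_mul, ← C_sub, ← C_mul, natDegree_C]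

/-- a nonzero polynomial is a constant times a square, or some irreducible polynomial divides it with
odd multiplicity -/
theorem exists_sq_or_odd {K : Type*} [Field K] : ∀ (n : ℕ) (R : K[X]), R.natDegree = n → R ≠ 0 →
    (∃ (u : K) (S : K[X]), R = C u * S ^ 2) ∨
      ∃ (π R' : K[X]) (e : ℕ), Irreducible π ∧ R = π ^ e * R' ∧ ¬ π ∣ R' ∧ Odd e := by
  intro n
  induction n using Nat.strong_induction_on with
  | _ n ih =>
    intro R hn hR
    by_cases h0 : R.natDegree = 0
    · left
      obtain ⟨r, hr⟩ := natDegree_eq_zero.1 h0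
      exact ⟨r, 1, by rw [one_pow, mul_one, hr]⟩
    · have hnu : ¬ IsUnit R := fun hu => h0 (natDegree_eq_zero_of_isUnit hu)
      obtain ⟨π, hπ, hπR⟩ := WfDvdMonoid.exists_irreducible_factor hnu hR
      have hfin : FiniteMultiplicity π R := FiniteMultiplicity.of_not_isUnit hπ.not_isUnit hR
      obtain ⟨R', hR', hnd⟩ := hfin.exists_eq_pow_mul_and_not_dvd
      set e := multiplicity π R with he
      by_cases hodd : Odd e
      · right
        exact ⟨π, R', e, hπ, hR', hnd, hodd⟩
      · rw [Nat.not_odd_iff_even] at hodd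
        obtain ⟨j, hj⟩ := hodd
        have hR'0 : R' ≠ 0 := by
          rintro rfl
          exact hnd (dvd_zero _)
        have hπe0 : π ^ e ≠ 0 := pow_ne_zero _ hπ.ne_zero
        have hepos : 0 < e := by
          rcases Nat.eq_zero_or_pos e with h | h
          · exfalso
            rw [h, pow_zero, one_mul] at hR'
            rw [hR'] at hπR
            exact hnd hπR
          · exact h
        have hdeg : R.natDegree = e * π.natDegree + R'.natDegree := by
          conv_lhs => rw [hR']
          rw [natDegree_mul hπe0 hR'0, natDegree_pow]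
        have hpos := hπ.natDegree_pos
        have hlt : R'.natDegree < n := by
          have : 0 < e * π.natDegree := Nat.mul_pos hepos hpos
          omega
        rcases ih R'.natDegree hlt R' rfl hR'0 with ⟨u, S, hS⟩ | ⟨π', R'', e', hπ', hR'', hnd', hodd'⟩
        · left
          refine ⟨u, π ^ j * S, ?_⟩
          rw [hR', hS, hj]
          ring
        · right
          refine ⟨π', π ^ e * R'', e', hπ', ?_, ?_, hodd'⟩
          · rw [hR', hR'']
            ring
          · intro hdvd
            rcases (hπ'.prime.dvd_or_dvd hdvd) with h1 | h1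
            · have h2 : π' ∣ π := hπ'.prime.dvd_of_dvd_pow h1
              have h3 : π ∣ π' := (hπ'.dvd_symm hπ h2)
              apply hnd
              rw [hR'']
              exact (h3.trans (dvd_pow_self _ hodd'.pos.ne')).mul_right _
            · exact hnd' h1

/-- Let `P/Q` be a nonconstant rational function and `c 0, …, c 3` different numbers. Then for some
`i` there is an irreducible polynomial that divides `P - c i Q` with odd multiplicity. -/
theorem exists_odd_factor {K : Type*} [Field K] [CharZero K] (P Q : K[X]) (hPQ : IsCoprime P Q)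
    (hdeg : 0 < max P.natDegree Q.natDegree) (c : Fin 4 → K) (hc : Function.Injective c) :
    ∃ (i : Fin 4) (π R' : K[X]) (e : ℕ), Irreducible π ∧ P - C (c i) * Q = π ^ e * R' ∧
      ¬ π ∣ R' ∧ Odd e := by
  by_contra hcon
  push Not at hcon
  have hne : ∀ i, P - C (c i) * Q ≠ 0 := by
    intro i h
    have h1 : P = C (c i) * Q := sub_eq_zero.1 h
    have h2 : IsUnit Q := by
      have h3 : Q ∣ P := by rw [h1]; exact Dvd.intro_left _ rfl
      exact hPQ.isUnit_of_dvd' h3 dvd_rfl
    have h3 : Q.natDegree = 0 := natDegree_eq_zero_of_isUnit h2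
    have h4 : P.natDegree = 0 := by
      have h5 := natDegree_C_mul_le (c i) Q
      rw [← h1] at h5
      omega
    rw [h3, h4] at hdeg
    simp at hdeg
  have hsq : ∀ i, ∃ (u : K) (S : K[X]), P - C (c i) * Q = C u * S ^ 2 := by
    intro i
    rcases exists_sq_or_odd _ _ rfl (hne i) with h | ⟨π, R', e, hπ, hR', hnd, hodd⟩
    · exact h
    · exact absurd hodd (hcon i π R' e hπ hR' hnd)
  set φ := algebraMap K (AlgebraicClosure K) with hφ
  have h := four_squares (F := AlgebraicClosure K) two_ne_zero (max P.natDegree Q.natDegree)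
    (P.map φ) (Q.map φ) (by rw [natDegree_map]; exact le_max_left _ _)
    (by rw [natDegree_map]; exact le_max_right _ _) (hPQ.map (mapRingHom φ)) (fun _ => 1)
    (fun i => - φ (c i)) (by
      intro i j hij h
      apply hij
      apply hc
      apply φ.injective
      linear_combination h) (by
      intro i
      obtain ⟨u, S, hS⟩ := hsq i
      obtain ⟨w, hw⟩ := IsAlgClosed.exists_pow_nat_eq (φ u) (n := 2) (by norm_num)
      refine ⟨C w * S.map φ, ?_⟩
      have h1 := congrArg (Polynomial.map φ) hS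
      rw [Polynomial.map_sub, Polynomial.map_mul, map_C, Polynomial.map_mul, map_C,
        Polynomial.map_pow] at h1
      rw [mul_pow, ← C_pow, hw, ← h1, C_1, C_neg]
      ring)
  rw [natDegree_map, natDegree_map] at h
  rw [h.1, h.2] at hdeg
  simp at hdeg

end Pool.Agent.Q52.SecV
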