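import Pool.Agent.Q52.SecV.Odd
import Pool.Agent.Q52.SecV.Sq

/-! # The places of the line and rational maps -/

namespace Pool.Agent.Q52.SecV

open Polynomial

/-- the local ring of a closed point of the affine line -/
theorem place_irr {K L : Type} [Field K] [Field L] [Algebra K L] (s : L)
    (hs : Transcendental K s) (htop : IntermediateField.adjoin K {s} = ⊤) (π : K[X])
    (hπ : Irreducible π) :
    ∃ (B : ValuationSubring L) (_ : IsDiscreteValuationRing B) (i : K[X] →+* B)
      (ρ : B →+* AdjoinRoot π), Function.Surjective ρ ∧ (∀ P, ((i P : B) : L) = aeval s P) ∧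
      (∀ P, ρ (i P) = AdjoinRoot.mk π P) ∧ (∀ P, ¬ π ∣ P → IsUnit (i P)) ∧ Irreducible (i π) := by
  classical
  set P : Ideal K[X] := Ideal.span {π} with hP
  have hmemP : ∀ p : K[X], p ∈ P ↔ π ∣ p := by
    intro p
    rw [hP, Ideal.mem_span_singleton]
  have hPp : P.IsPrime := by
    rw [hP, Ideal.span_singleton_prime hπ.ne_zero]
    exact hπ.prime
  have hP0 : P ≠ ⊥ := by
    rw [hP, Ne, Ideal.span_singleton_eq_bot]
    exact hπ.ne_zero
  have hinj : Function.Injective (aeval s : K[X] →ₐ[K] L) := transcendental_iff_injective.1 hs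
  letI algL : Algebra K[X] L := ((aeval s : K[X] →ₐ[K] L) : K[X] →+* L).toAlgebra
  have halg : ∀ p : K[X], algebraMap K[X] L p = aeval s p := fun p => rfl
  have hfaith : FaithfulSMul K[X] L := (faithfulSMul_iff_algebraMap_injective _ _).2 hinj
  have hfrac : IsFractionRing K[X] L := by
    apply IsFractionRing.of_field
    intro z
    have hz : z ∈ IntermediateField.adjoin K {s} := by
      rw [htop]
      trivial
    rw [IntermediateField.mem_adjoin_simple_iff] at hz
    exact hz
  obtain ⟨B, hB, i, ρ, hρ, hi, hρi, hui, hPi⟩ := exists_local K[X] L P hP0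
  refine ⟨B, hB, i, ρ, hρ, fun p => hi p, fun p => hρi p, ?_, ?_⟩
  · intro p hp
    exact hui p fun h => hp ((hmemP p).1 h)
  · rw [IsDiscreteValuationRing.irreducible_iff_uniformizer, ← hPi, hP, Ideal.map_span,
      Set.image_singleton]

/-- the value of a nonzero polynomial at a function which takes the value `c` with multiplicity `e`
at the place -/
theorem val_at {K L : Type} [Field K] [Field L] [Algebra K L] (B : ValuationSubring L)
    [IsDiscreteValuationRing B] {κ : Type} [Field κ] (ρ : B →+* κ) (hρ : Function.Surjective ρ)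
    (i : K →+* B) (hi : ∀ c, ((i c : B) : L) = algebraMap K L c) (π : B)
    (G : B) (c : K) (u : Bˣ) (e : ℕ) (he : 0 < e) (hG : G - i c = u * π ^ e) (hπ : Irreducible π)
    (p : K[X]) (hp : p ≠ 0) :
    ∃ v : Bˣ, aeval (G : L) p = ((v * π ^ (e * p.rootMultiplicity c) : B) : L) := by
  obtain ⟨p1, hp1, hnd⟩ := exists_eq_pow_rootMultiplicity_mul_and_not_dvd p hp c
  set m := p.rootMultiplicity c with hm
  have hmax : RingHom.ker ρ = IsLocalRing.maximalIdeal B := by
    have h1 : (RingHom.ker ρ).IsMaximal := RingHom.ker_isMaximal_of_surjective ρ hρ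
    exact IsLocalRing.eq_maximalIdeal h1
  have hρπ : ρ π = 0 := by
    have h1 : π ∈ RingHom.ker ρ := by
      rw [hmax, IsLocalRing.mem_maximalIdeal]
      exact hπ.not_isUnit
    exact h1
  have hρG : ρ G = ρ (i c) := by
    rw [← sub_eq_zero, ← map_sub, hG, map_mul, map_pow, hρπ, zero_pow he.ne', mul_zero]
  have hunit : IsUnit (eval₂ i G p1) := by
    by_contra hcon
    have h1 : eval₂ i G p1 ∈ RingHom.ker ρ := by
      rw [hmax, IsLocalRing.mem_maximalIdeal]
      exact hcon
    rw [RingHom.mem_ker, hom_eval₂, hρG] at h1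
    have h2 : eval₂ (ρ.comp i) ((ρ.comp i) c) p1 = 0 := h1
    rw [eval₂_at_apply, map_eq_zero_iff _ (ρ.comp i).injective] at h2
    exact hnd (dvd_iff_isRoot.2 h2)
  obtain ⟨w, hw⟩ := hunit
  refine ⟨u ^ m * w, ?_⟩
  have h1 : aeval (G : L) p = ((eval₂ i G p : B) : L) := by
    have h2 : (algebraMap B L).comp i = algebraMap K L := by
      ext c
      exact hi c
    have h3 : ((eval₂ i G p : B) : L) = algebraMap B L (eval₂ i G p) := rfl
    rw [h3, hom_eval₂, h2]
    rfl
  rw [h1]
  congr 1
  conv_lhs => rw [hp1]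
  rw [eval₂_mul, eval₂_pow, eval₂_sub, eval₂_X, eval₂_C, hG, ← hw, Units.val_mul,
    Units.val_pow_eq_pow_val, mul_pow, ← pow_mul]
  ring

end Pool.Agent.Q52.SecV
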