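import Mathlib

/-! # Places of odd ramification index and odd degree in extensions of odd degree -/

namespace Pool.Agent.Q52.SecV

open Polynomial

set_option linter.deprecated false in
/-- in an extension of odd degree there is a prime with odd ramification index and odd degree -/
theorem exists_odd_prime (A : Type) [CommRing A] [IsDomain A] [IsDedekindDomain A]
    (p : Ideal A) [p.IsMaximal] (hp0 : p ≠ ⊥) (S : Type) [CommRing S] [IsDomain S]
    [IsDedekindDomain S] [Algebra A S] [Module.Finite A S] [Module.IsTorsionFree A S]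
    (k L : Type) [Field k] [Field L] [Algebra A k] [IsFractionRing A k] [Algebra S L]
    [IsFractionRing S L] [Algebra k L] [Algebra A L] [IsScalarTower A S L] [IsScalarTower A k L]
    (hodd : Odd (Module.finrank k L)) :
    ∃ P : Ideal S, P.IsPrime ∧ P.LiesOver p ∧ Odd (Ideal.ramificationIdx' p P) ∧
      Odd (Ideal.inertiaDeg' p P) := by
  classical
  have h1 := Ideal.sum_ramification_inertia S k L (p := p) hp0
  by_contra hcon
  push Not at hcon
  have h2 : Even (∑ P ∈ IsDedekindDomain.primesOverFinset p S,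
      Ideal.ramificationIdx' p P * Ideal.inertiaDeg' p P) := by
    apply Finset.even_sum
    intro P hP
    obtain ⟨hP1, hP2⟩ := (IsDedekindDomain.mem_primesOverFinset_iff hp0 _).mp hP
    by_cases ho : Odd (Ideal.ramificationIdx' p P)
    · have h3 := hcon P hP1 hP2 ho
      rw [Nat.not_odd_iff_even] at h3
      exact h3.mul_left _
    · rw [Nat.not_odd_iff_even] at ho
      exact ho.mul_right _
  rw [h1] at h2
  exact (Nat.not_even_iff_odd.2 hodd) h2

/-- the local ring of a prime as a valuation ring of the fraction field -/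
theorem exists_local (S : Type) [CommRing S] [IsDomain S] [IsDedekindDomain S] (L : Type)
    [Field L] [Algebra S L] [IsFractionRing S L] (P : Ideal S) [P.IsPrime] (hP0 : P ≠ ⊥) :
    ∃ (B : ValuationSubring L) (_ : IsDiscreteValuationRing B) (i : S →+* B) (ρ : B →+* S ⧸ P),
      Function.Surjective ρ ∧ (∀ s, ((i s : B) : L) = algebraMap S L s) ∧
      (∀ s, ρ (i s) = Ideal.Quotient.mk P s) ∧
      (∀ s, s ∉ P → IsUnit (i s)) ∧
      P.map i = IsLocalRing.maximalIdeal B := by
  classical
  have hinj : Function.Injective (algebraMap S L) := IsFractionRing.injective S L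
  have hmax : P.IsMaximal := Ideal.IsPrime.isMaximal inferInstance hP0
  letI : Field (S ⧸ P) := Ideal.Quotient.field P
  have hunit : ∀ p : P.primeCompl, IsUnit (algebraMap S L (p : S)) := by
    intro p
    rw [isUnit_iff_ne_zero, Ne, map_eq_zero_iff _ hinj]
    intro h
    apply p.2
    rw [h]
    exact P.zero_mem
  set B0 := Localization.AtPrime P with hB0
  let φ : B0 →+* L := IsLocalization.lift (M := P.primeCompl) (g := algebraMap S L) hunit
  have hφ : ∀ p : S, φ (algebraMap S B0 p) = algebraMap S L p := fun p =>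
    IsLocalization.lift_eq hunit p
  let _ : Algebra B0 L := φ.toAlgebra
  have htower : IsScalarTower S B0 L := IsScalarTower.of_algebraMap_eq fun p => (hφ p).symm
  have hBfrac : IsFractionRing B0 L :=
    IsFractionRing.isFractionRing_of_isDomain_of_isLocalization P.primeCompl B0 L
  have hBdvr : IsDiscreteValuationRing B0 :=
    IsLocalization.AtPrime.isDiscreteValuationRing_of_dedekind_domain S hP0 B0
  have hφinj : Function.Injective φ := IsFractionRing.injective B0 L
  let A : ValuationSubring L := ValuationSubring.ofSubring φ.range (by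
    intro z
    rcases ValuationRing.isInteger_or_isInteger B0 z with ⟨b, hb⟩ | ⟨b, hb⟩
    · exact Or.inl ⟨b, hb⟩
    · exact Or.inr ⟨b, hb⟩)
  have hmemA : ∀ z, z ∈ A ↔ ∃ b, φ b = z := fun z => by
    rw [ValuationSubring.mem_ofSubring]
    rfl
  let j : B0 →+* A := φ.codRestrict A.toSubring fun b => (hmemA _).2 ⟨b, rfl⟩
  have hj : Function.Bijective j := by
    constructor
    · intro a b hab
      exact hφinj (congrArg (fun z : A => (z : L)) hab)
    · rintro ⟨z, hz⟩
      obtain ⟨b, hb⟩ := (hmemA z).1 hz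
      exact ⟨b, Subtype.ext hb⟩
  let eq : B0 ≃+* A := RingEquiv.ofBijective j hj
  have hAdvr : IsDiscreteValuationRing A :=
    IsDiscreteValuationRing.RingEquivClass.isDiscreteValuationRing eq
  have hunit0 : ∀ p : P.primeCompl, IsUnit ((Ideal.Quotient.mk P) (p : S)) := by
    intro p
    rw [isUnit_iff_ne_zero]
    intro h
    exact p.2 (Ideal.Quotient.eq_zero_iff_mem.1 h)
  let ρ0 : B0 →+* S ⧸ P := IsLocalization.lift (M := P.primeCompl) (g := Ideal.Quotient.mk P) hunit0
  have hρ0 : ∀ p : S, ρ0 (algebraMap S B0 p) = Ideal.Quotient.mk P p := fun p =>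
    IsLocalization.lift_eq hunit0 p
  refine ⟨A, hAdvr, j.comp (algebraMap S B0), ρ0.comp (eq.symm : A →+* B0), ?_, ?_, ?_, ?_, ?_⟩
  · intro c
    obtain ⟨p, rfl⟩ := Ideal.Quotient.mk_surjective c
    refine ⟨j (algebraMap S B0 p), ?_⟩
    change ρ0 (eq.symm (eq (algebraMap S B0 p))) = _
    rw [RingEquiv.symm_apply_apply, hρ0]
  · intro p
    exact hφ p
  · intro p
    change ρ0 (eq.symm (eq (algebraMap S B0 p))) = _
    rw [RingEquiv.symm_apply_apply, hρ0]
  · intro p hp
    have h1 : IsUnit (algebraMap S B0 p) := by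
      rw [IsLocalization.AtPrime.isUnit_to_map_iff B0 P]
      exact hp
    exact h1.map j
  · rw [← Ideal.map_map, IsLocalization.AtPrime.map_eq_maximalIdeal P B0]
    have h1 : Ideal.map j (IsLocalRing.maximalIdeal B0) = Ideal.map (eq : B0 →+* A)
      (IsLocalRing.maximalIdeal B0) := rfl
    rw [h1]
    ext x
    constructor
    · intro hx
      obtain ⟨y, hy, rfl⟩ := (Ideal.mem_map_iff_of_surjective (eq : B0 →+* A) eq.surjective).1 hx
      rw [IsLocalRing.mem_maximalIdeal, mem_nonunits_iff] at hy ⊢
      intro h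
      apply hy
      have h2 := h.map eq.symm
      change IsUnit (eq.symm (eq y)) at h2
      rwa [RingEquiv.symm_apply_apply] at h2
    · intro hx
      rw [Ideal.mem_map_iff_of_surjective (eq : B0 →+* A) eq.surjective]
      refine ⟨eq.symm x, ?_, ?_⟩
      · rw [IsLocalRing.mem_maximalIdeal, mem_nonunits_iff] at hx ⊢
        intro h
        apply hx
        have h2 := h.map eq
        rwa [RingEquiv.apply_symm_apply] at h2
      · exact RingEquiv.apply_symm_apply eq x

set_option linter.deprecated false in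
/-- a uniformiser below is a unit times the power of a uniformiser with the ramification index as
exponent -/
theorem unif_pow (A : Type) [CommRing A] [IsDomain A] [IsDedekindDomain A]
    (p : Ideal A) [p.IsMaximal] (ϖ : A) (hϖ : p = Ideal.span {ϖ}) (hϖ0 : ϖ ≠ 0) (S : Type)
    [CommRing S] [IsDomain S]
    [IsDedekindDomain S] [Algebra A S] (hAS : Function.Injective (algebraMap A S))
    (P : Ideal S) [P.IsPrime] (B : Type) [CommRing B] [IsDomain B] [IsDiscreteValuationRing B]
    (i : S →+* B) (hu : ∀ s, s ∉ P → IsUnit (i s)) (hm : P.map i = IsLocalRing.maximalIdeal B)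
    (π : B) (hπ : Irreducible π) :
    ∃ u : Bˣ, i (algebraMap A S ϖ) = u * π ^ Ideal.ramificationIdx' p P := by
  classical
  have hp0 : p.map (algebraMap A S) ≠ ⊥ := by
    rw [hϖ, Ideal.map_span, Set.image_singleton, Ne, Ideal.span_singleton_eq_bot,
      map_eq_zero_iff _ hAS]
    exact hϖ0
  set e := Ideal.ramificationIdx' p P with he
  have h1 : p.map (algebraMap A S) ≤ P ^ e := Ideal.le_pow_ramificationIdx' (p := p) (P := P)
  obtain ⟨J, hJ⟩ := Ideal.dvd_iff_le.2 h1
  have h2 : ¬ J ≤ P := by
    intro hJP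
    obtain ⟨J', hJ'⟩ := Ideal.dvd_iff_le.2 hJP
    have h3 : p.map (algebraMap A S) ≤ P ^ (e + 1) := by
      rw [hJ, hJ', pow_succ, ← mul_assoc]
      exact Ideal.mul_le_left (I := P ^ e * P) (J := J')
    have h4 : FiniteMultiplicity P (p.map (algebraMap A S)) := by
      apply FiniteMultiplicity.of_not_isUnit
      · rw [Ideal.isUnit_iff]
        exact Ideal.IsPrime.ne_top (I := P) inferInstance
      · exact hp0
    have h5 := (h4.pow_dvd_iff_le_multiplicity (k := e + 1)).1 (Ideal.dvd_iff_le.2 h3)
    rw [← Ideal.IsDedekindDomain.ramificationIdx'_eq_multiplicity hp0 inferInstance] at h5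
    omega
  obtain ⟨s, hs, hsP⟩ := Set.not_subset.1 h2
  have h5 : J.map i = ⊤ := Ideal.eq_top_of_isUnit_mem _ (Ideal.mem_map_of_mem i hs) (hu s hsP)
  have h6 : (p.map (algebraMap A S)).map i = IsLocalRing.maximalIdeal B ^ e := by
    rw [hJ, Ideal.map_mul, Ideal.map_pow, hm, h5, Ideal.mul_top]
  rw [hϖ, Ideal.map_span, Ideal.map_span, Set.image_singleton, Set.image_singleton,
    hπ.maximalIdeal_eq, Ideal.span_singleton_pow, Ideal.span_singleton_eq_span_singleton] at h6
  obtain ⟨u, hu'⟩ := h6.symm
  exact ⟨u, by rw [← hu', mul_comm]⟩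

end Pool.Agent.Q52.SecV
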