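import Pool.Agent.Q52.SecV.Odd

/-! # Places of odd ramification index and odd degree in extensions of odd degree -/

namespace Pool.Agent.Q52.SecV

open Polynomial

/-- the data of a discrete valuation ring `B` of `L` above the discrete valuation ring `A` of `k`,
with ramification index `e` and residue field `κ'` -/
structure Place (k : Type) [Field k] (A : ValuationSubring k) (ϖ : A) (κ : Type) [Field κ]
    (ρ : A →+* κ) (L : Type) [Field L] [Algebra k L] where
  B : ValuationSubring L
  dvr : IsDiscreteValuationRing B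
  κ' : Type
  fld : Field κ'
  alg : Algebra κ κ'
  fin : FiniteDimensional κ κ'
  ρ' : B →+* κ'
  sur : Function.Surjective ρ'
  i : A →+* B
  hi : ∀ a, ((i a : B) : L) = algebraMap k L a
  hρi : ∀ a, ρ' (i a) = algebraMap κ κ' (ρ a)
  π : B
  hπ : Irreducible π
  e : ℕ
  u : Bˣ
  hu : i ϖ = u * π ^ e

set_option linter.deprecated false in
theorem exists_odd_place (k : Type) [Field k] [CharZero k] (A : ValuationSubring k)
    [IsDiscreteValuationRing A] (ϖ : A) (hϖ : Irreducible ϖ) (κ : Type) [Field κ] (ρ : A →+* κ)
    (hρ : Function.Surjective ρ) (L : Type) [Field L]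
    [Algebra k L] [FiniteDimensional k L] (hodd : Odd (Module.finrank k L)) :
    ∃ P : Place k A ϖ κ ρ L, Odd P.e ∧
      Odd (@Module.finrank κ P.κ' _ (P.fld.toRing.toAddCommGroup.toAddCommMonoid)
        (@Algebra.toModule κ P.κ' _ _ P.alg)) := by
  classical
  set p := IsLocalRing.maximalIdeal A with hp
  have hp0 : p ≠ ⊥ := IsDiscreteValuationRing.not_a_field A
  have hϖp : p = Ideal.span {ϖ} := hϖ.maximalIdeal_eq
  have hS1 : IsDedekindDomain (integralClosure A L) := integralClosure.isDedekindDomain A k L
  have hS2 : IsFractionRing (integralClosure A L) L :=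
    integralClosure.isFractionRing_of_finite_extension k L
  have hS3 : Module.Finite A (integralClosure A L) := IsIntegralClosure.finite A k L _
  have hinj : Function.Injective (algebraMap A (integralClosure A L)) := by
    intro x y hxy
    have h1 := congrArg (fun z : integralClosure A L => (z : L)) hxy
    exact Subtype.ext ((algebraMap k L).injective h1)
  have hff := (faithfulSMul_iff_algebraMap_injective A (integralClosure A L)).2 hinj
  obtain ⟨P, hP1, hP2, he, hf⟩ := exists_odd_prime A p hp0 (integralClosure A L) k L hodd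
  have hP0 : P ≠ ⊥ := by
    rintro rfl
    have h1 := hP2.over
    apply hp0
    rw [h1, Ideal.under_bot]
  have hPm : P.IsMaximal := Ideal.IsPrime.isMaximal inferInstance hP0
  obtain ⟨B, hB, i, ρ', hρ', hi, hρi, hui, hPi⟩ := exists_local (integralClosure A L) L P hP0
  letI : Field (integralClosure A L ⧸ P) := Ideal.Quotient.field P
  letI : Field (A ⧸ p) := Ideal.Quotient.field p
  have hker : RingHom.ker ρ = p := by
    have hmax : (RingHom.ker ρ).IsMaximal := RingHom.ker_isMaximal_of_surjective ρ hρ
    exact IsLocalRing.eq_maximalIdeal hmax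
  let ε : A ⧸ p ≃+* κ := (Ideal.quotEquivOfEq hker.symm).trans (RingHom.quotientKerEquivOfSurjective hρ)
  have hε : ∀ a : A, ε (Ideal.Quotient.mk p a) = ρ a := fun a => rfl
  letI algκ : Algebra κ (integralClosure A L ⧸ P) :=
    ((algebraMap (A ⧸ p) (integralClosure A L ⧸ P)).comp (ε.symm : κ →+* A ⧸ p)).toAlgebra
  have hrank : Module.finrank (A ⧸ p) (integralClosure A L ⧸ P) =
      Module.finrank κ (integralClosure A L ⧸ P) := by
    apply Algebra.finrank_eq_of_equiv_equiv ε (RingEquiv.refl _)
    ext a
    change algebraMap (A ⧸ p) (integralClosure A L ⧸ P) (ε.symm (ε _)) = _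
    rw [RingEquiv.symm_apply_apply]
    rfl
  have hodd' : Odd (Module.finrank κ (integralClosure A L ⧸ P)) := by
    rw [← hrank, ← Ideal.inertiaDeg'_algebraMap]
    exact hf
  have hfin : FiniteDimensional κ (integralClosure A L ⧸ P) := by
    apply Module.finite_of_finrank_pos
    exact hodd'.pos
  obtain ⟨π, hπ⟩ := IsDiscreteValuationRing.exists_irreducible B
  obtain ⟨u, hu⟩ := unif_pow A p ϖ hϖp hϖ.ne_zero (integralClosure A L) hinj P B i hui hPi π hπ
  refine ⟨⟨B, hB, integralClosure A L ⧸ P, inferInstance, algκ, hfin, ρ', hρ',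
    i.comp (algebraMap A (integralClosure A L)), ?_, ?_, π, hπ, Ideal.ramificationIdx' p P, u, hu⟩,
    he, hodd'⟩
  · intro a
    rw [RingHom.comp_apply, hi]
    rfl
  · intro a
    rw [RingHom.comp_apply, hρi]
    change _ = algebraMap (A ⧸ p) (integralClosure A L ⧸ P) (ε.symm (ρ a))
    rw [← hε, RingEquiv.symm_apply_apply]
    rfl

end Pool.Agent.Q52.SecV
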